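import Mathlib

/-!
# Separation part of the Jordan curve theorem (Maehara's proof, with the crossing lemma
proved through lifts along the exponential).
-/

namespace Pool.Agent.Lib.Jordan

open Complex Set

/-! ## The crossing lemma -/

theorem exists_log (F : ℝ × ℝ → ℂ) (hF : Continuous F) (h0 : ∀ x, F x ≠ 0) :
    ∃ G : ℝ × ℝ → ℂ, Continuous G ∧ ∀ x, Complex.exp (G x) = F x := by
  have h := Complex.isCoveringMapOn_exp.existsUnique_continuousMap_lifts
    (A := ℝ × ℝ) (f := ⟨F, hF⟩) (a₀ := (0, 0)) (e₀ := Complex.log (F (0, 0)))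
    (Complex.exp_log (h0 _)) (fun a => by simpa using h0 a)
  obtain ⟨G, ⟨-, hG⟩, -⟩ := h
  exact ⟨G, G.continuous, fun x => congrFun hG x⟩

theorem edge (g : ℝ → ℂ) (hg : Continuous g) (c : ℂ) (hc : c ≠ 0)
    (h : ∀ t, 0 ≤ (c * Complex.exp (g t)).re) :
    (g 1).im - (g 0).im = Complex.arg (c * Complex.exp (g 1)) -
      Complex.arg (c * Complex.exp (g 0)) := by
  have hslit : ∀ t, c * Complex.exp (g t) ∈ Complex.slitPlane := by
    intro t
    have hne : c * Complex.exp (g t) ≠ 0 := mul_ne_zero hc (Complex.exp_ne_zero _)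
    rw [Complex.mem_slitPlane_iff]
    rcases (h t).lt_or_eq with h1 | h1
    · exact Or.inl h1
    · right
      intro h2
      exact hne (Complex.ext h1.symm h2)
  have h1 : Continuous fun t => Complex.log (c * Complex.exp (g t)) := by
    apply Continuous.clog
    · fun_prop
    · exact hslit
  have h2 : Continuous fun t => g t + (Complex.log (c * Complex.exp (g 0)) - g 0) := by
    fun_prop
  have key := Complex.isCoveringMap_exp.eq_of_comp_eq (A := ℝ) h1 h2 (by
    funext t
    apply Subtype.ext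
    simp only [Function.comp_apply]
    rw [Complex.exp_log (mul_ne_zero hc (Complex.exp_ne_zero _)), Complex.exp_add,
      Complex.exp_sub, Complex.exp_log (mul_ne_zero hc (Complex.exp_ne_zero _))]
    have := Complex.exp_ne_zero (g 0)
    field_simp) 0 (by simp)
  have key1 := congrFun key 1
  have key2 := congrArg Complex.im key1
  simp only [Complex.add_im, Complex.sub_im, Complex.log_im] at key2
  linarith

theorem arg_pos_aux (z : ℂ) (h : 0 < z.im) : 0 < Complex.arg z := by
  have h1 : 0 ≤ Complex.arg z := Complex.arg_nonneg_iff.mpr h.le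
  rcases h1.lt_or_eq with h2 | h2
  · exact h2
  · exfalso
    have := Complex.arg_eq_zero_iff.mp h2.symm
    linarith [this.2]

theorem arg_neg_aux (z : ℂ) (h : z.im < 0) : Complex.arg z < 0 :=
  Complex.arg_neg_iff.mpr h

/-- The closed rectangle. -/
def E : Set ℂ := {z | |z.re| ≤ 1 ∧ |z.im| ≤ 2}

theorem crossing_fun (H V : ℝ → ℂ) (hH : Continuous H) (hV : Continuous V)
    (H0 : H 0 = -1) (H1 : H 1 = 1) (V0 : V 0 = 2 * I) (V1 : V 1 = -(2 * I))
    (HE : ∀ t, H t ∈ E) (VE : ∀ t, V t ∈ E) : ∃ s t, H s = V t := by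
  by_contra hcon
  push Not at hcon
  obtain ⟨G, hG, hGF⟩ := exists_log (fun x => H x.1 - V x.2) (by fun_prop)
    (fun x => sub_ne_zero.mpr (hcon _ _))
  -- edge t = 0, from (0,0) to (1,0)
  have e1 := edge (fun s => G (s, 0)) (by fun_prop) I I_ne_zero (by
    intro s
    simp only [hGF]
    have := (HE s).2
    rw [abs_le] at this
    simp [V0]
    linarith)
  have e2 := edge (fun t => G (1, t)) (by fun_prop) 1 one_ne_zero (by
    intro s
    simp only [hGF]
    have := (VE s).1
    rw [abs_le] at this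
    simp [H1]
    linarith)
  have e3 := edge (fun s => G (s, 1)) (by fun_prop) (-I) (neg_ne_zero.mpr I_ne_zero) (by
    intro s
    simp only [hGF]
    have := (HE s).2
    rw [abs_le] at this
    simp [V1]
    linarith)
  have e4 := edge (fun t => G (0, t)) (by fun_prop) (-1) (neg_ne_zero.mpr one_ne_zero) (by
    intro s
    simp only [hGF]
    have := (VE s).1
    rw [abs_le] at this
    simp [H0]
    linarith)
  simp only [hGF, H0, H1, V0, V1] at e1 e2 e3 e4
  have a1 := arg_pos_aux (I * (1 - 2 * I)) (by simp)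
  have a2 := arg_neg_aux (I * (-1 - 2 * I)) (by simp)
  have a3 := arg_pos_aux (1 * (1 - -(2 * I))) (by simp)
  have a4 := arg_neg_aux (1 * (1 - (2 * I))) (by simp)
  have a5 := arg_neg_aux (-I * (1 - -(2 * I))) (by simp)
  have a6 := arg_pos_aux (-I * (-1 - -(2 * I))) (by simp)
  have a7 := arg_neg_aux (-1 * (-1 - -(2 * I))) (by simp)
  have a8 := arg_pos_aux (-1 * (-1 - (2 * I))) (by simp)
  linarith

theorem crossing (H : Path (-1 : ℂ) 1) (V : Path (2 * I) (-(2 * I)))
    (hH : ∀ t, H t ∈ E) (hV : ∀ t, V t ∈ E) : ∃ s t, H s = V t := by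
  obtain ⟨s, t, hst⟩ := crossing_fun H.extend V.extend H.continuous_extend V.continuous_extend
    (by simp) (by simp) (by simp) (by simp)
    (fun t => by
      have : H.extend t ∈ range H.extend := ⟨t, rfl⟩
      rw [Path.extend_range] at this
      obtain ⟨u, hu⟩ := this
      rw [← hu]; exact hH u)
    (fun t => by
      have : V.extend t ∈ range V.extend := ⟨t, rfl⟩
      rw [Path.extend_range] at this
      obtain ⟨u, hu⟩ := this
      rw [← hu]; exact hV u)
  have h1 : H.extend s ∈ range H := by rw [← Path.extend_range]; exact ⟨s, rfl⟩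
  have h2 : V.extend t ∈ range V := by rw [← Path.extend_range]; exact ⟨t, rfl⟩
  obtain ⟨u, hu⟩ := h1
  obtain ⟨v, hv⟩ := h2
  exact ⟨u, v, by rw [hu, hv, hst]⟩

theorem not_joinedIn (H : Path (-1 : ℂ) 1) (hH : ∀ t, H t ∈ E) :
    ¬ JoinedIn (E \ range H) (2 * I) (-(2 * I)) := by
  rintro ⟨V, hV⟩
  obtain ⟨s, t, h⟩ := crossing H V hH (fun t => (hV t).1)
  exact (hV t).2 ⟨s, h⟩

/-! ## Joining along segments -/

theorem vjoin (F : Set ℂ) (y₁ y₂ : ℝ) (h : ∀ y ∈ uIcc y₁ y₂, (y : ℂ) * I ∈ F) :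
    JoinedIn F ((y₁ : ℂ) * I) ((y₂ : ℂ) * I) := by
  apply JoinedIn.of_segment_subset
  rintro z ⟨a, b, ha, hb, hab, rfl⟩
  have h1 : a * y₁ + b * y₂ ∈ uIcc y₁ y₂ := by
    rw [← segment_eq_uIcc]
    exact ⟨a, b, ha, hb, hab, rfl⟩
  have h2 := h _ h1
  convert! h2 using 1
  push_cast
  simp only [Complex.real_smul]
  ring

theorem segjoin (F : Set ℂ) (z w : ℂ)
    (h : ∀ u : ℂ, u.re ∈ uIcc z.re w.re → u.im ∈ uIcc z.im w.im → u ∈ F) :
    JoinedIn F z w := by
  apply JoinedIn.of_segment_subset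
  rintro u ⟨a, b, ha, hb, hab, rfl⟩
  apply h
  · rw [← segment_eq_uIcc]
    exact ⟨a, b, ha, hb, hab, by simp⟩
  · rw [← segment_eq_uIcc]
    exact ⟨a, b, ha, hb, hab, by simp⟩

theorem first_exit {z w : ℂ} (δ : Path z w) (hz : |z.re| < 1 ∧ |z.im| < 2) (hw : w ∉ E) :
    ∃ u : ℂ, u ∈ E ∧ (|u.re| = 1 ∨ |u.im| = 2) ∧ JoinedIn (E ∩ range δ) z u := by
  let f : ℝ → ℝ := fun t => max |(δ.extend t).re| (|(δ.extend t).im| / 2)
  have hf : Continuous f := by
    have := δ.continuous_extend
    fun_prop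
  have f0 : f 0 < 1 := by
    simp only [f, Path.extend_zero]
    apply max_lt hz.1
    linarith [hz.2]
  have f1 : 1 < f 1 := by
    simp only [f, Path.extend_one]
    by_contra hcon
    push Not at hcon
    apply hw
    have h1 := le_max_left |w.re| (|w.im| / 2)
    have h2 := le_max_right |w.re| (|w.im| / 2)
    exact ⟨by linarith, by linarith⟩
  have hS : IsCompact (Icc (0 : ℝ) 1 ∩ {t | 1 ≤ f t}) :=
    isCompact_Icc.inter_right (isClosed_le continuous_const hf)
  obtain ⟨τ, ⟨hτ1, hτ2⟩, hτ3⟩ := hS.exists_isLeast ⟨1, ⟨by norm_num, le_rfl⟩, f1.le⟩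
  have hlt : ∀ t, 0 ≤ t → t < τ → f t < 1 := by
    intro t h0 h1
    by_contra hcon
    push Not at hcon
    have := hτ3 ⟨⟨h0, by linarith [hτ1.2]⟩, hcon⟩
    linarith
  have hfτ : f τ = 1 := by
    obtain ⟨t, ht1, ht2⟩ := intermediate_value_Icc hτ1.1 hf.continuousOn
      (show (1 : ℝ) ∈ Icc (f 0) (f τ) from ⟨f0.le, hτ2⟩)
    rcases ht1.2.lt_or_eq with h | h
    · have := hlt t ht1.1 h
      linarith
    · rw [← h]; exact ht2
  have hle : ∀ t, 0 ≤ t → t ≤ τ → δ.extend t ∈ E := by
    intro t h0 h1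
    have h2 : f t ≤ 1 := by
      rcases h1.lt_or_eq with h | h
      · exact (hlt t h0 h).le
      · rw [h, hfτ]
    have h3 := le_max_left |(δ.extend t).re| (|(δ.extend t).im| / 2)
    have h4 := le_max_right |(δ.extend t).re| (|(δ.extend t).im| / 2)
    exact ⟨h3.trans h2, by linarith [h4.trans h2]⟩
  refine ⟨δ.extend τ, hle τ hτ1.1 le_rfl, ?_, ?_⟩
  · simp only [f] at hfτ
    rcases le_total |(δ.extend τ).re| (|(δ.extend τ).im| / 2) with h | h
    · rw [max_eq_right h] at hfτ
      right; linarith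
    · rw [max_eq_left h] at hfτ
      left; exact hfτ
  · refine JoinedIn.ofLine (f := fun t => δ.extend (τ * t)) ?_ (by simp) (by simp) ?_
    · have := δ.continuous_extend
      fun_prop
    · rintro x ⟨t, ht, rfl⟩
      refine ⟨hle _ (mul_nonneg hτ1.1 ht.1) ?_, ?_⟩
      · nlinarith [hτ1.1, ht.2]
      · rw [← Path.extend_range]
        exact ⟨_, rfl⟩

/-! ## The core of Maehara's argument -/

theorem core (P Q : Path (-1 : ℂ) 1)
    (hI : ∀ z ∈ range P, z ∈ range Q → z = -1 ∨ z = 1)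
    (hPc : ∀ x ∈ range P, ∀ y ∈ range P, x ≠ -1 → x ≠ 1 → y ≠ -1 → y ≠ 1 →
      JoinedIn (range P \ {-1, 1}) x y)
    (hE : ∀ z ∈ range P ∪ range Q, |z.re| ≤ 1 ∧ |z.im| < 2)
    (hb : ∀ z ∈ range P ∪ range Q, |z.re| = 1 → z = -1 ∨ z = 1)
    (l : ℝ) (hl : (l : ℂ) * I ∈ range P) (hl2 : l ∈ Icc (-2 : ℝ) 2)
    (hmax : ∀ y : ℝ, l < y → y ≤ 2 → (y : ℂ) * I ∉ range P ∪ range Q) :
    ¬ IsPreconnected (range P ∪ range Q)ᶜ := by
  intro hpre
  have hcP : IsCompact (range P) := isCompact_range P.continuous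
  have hcQ : IsCompact (range Q) := isCompact_range Q.continuous
  have hcont : Continuous fun y : ℝ => (y : ℂ) * I := by fun_prop
  have hne1 : ∀ y : ℝ, (y : ℂ) * I ≠ -1 := by
    intro y h
    have := congrArg Complex.re h
    simp at this
  have hne2 : ∀ y : ℝ, (y : ℂ) * I ≠ 1 := by
    intro y h
    have := congrArg Complex.re h
    simp at this
  have hPE : ∀ z ∈ range P, z ∈ E := fun z hz => ⟨(hE z (Or.inl hz)).1, (hE z (Or.inl hz)).2.le⟩
  have hQE : ∀ z ∈ range Q, z ∈ E := fun z hz => ⟨(hE z (Or.inr hz)).1, (hE z (Or.inr hz)).2.le⟩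
  have hPnotQ : ∀ y : ℝ, (y : ℂ) * I ∈ range P → (y : ℂ) * I ∉ range Q := by
    intro y h1 h2
    rcases hI _ h1 h2 with h | h
    · exact hne1 y h
    · exact hne2 y h
  have hyE : ∀ y : ℝ, -2 ≤ y → y ≤ 2 → (y : ℂ) * I ∈ E := by
    intro y h1 h2
    refine ⟨by simp, ?_⟩
    simp only [mul_im, ofReal_re, I_im, mul_one, ofReal_im, I_re, mul_zero, add_zero]
    exact abs_le.mpr ⟨h1, h2⟩
  -- the lowest point of P
  have hS : IsCompact (Icc (-2 : ℝ) 2 ∩ {y | (y : ℂ) * I ∈ range P}) :=
    isCompact_Icc.inter_right (hcP.isClosed.preimage hcont)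
  obtain ⟨m, ⟨hm1, hm2⟩, hm3⟩ := hS.exists_isLeast ⟨l, hl2, hl⟩
  have hm2' : (m : ℂ) * I ∈ range P := hm2
  have hml : m ≤ l := hm3 ⟨hl2, hl⟩
  have hbelow : ∀ y : ℝ, -2 ≤ y → y < m → (y : ℂ) * I ∉ range P := by
    intro y h1 h2 h3
    have := hm3 ⟨⟨h1, by linarith [hm1.2]⟩, h3⟩
    linarith
  -- the joining of n to m
  have hnl : JoinedIn (E \ range Q) (((2 : ℝ) : ℂ) * I) ((l : ℂ) * I) := by
    apply vjoin
    intro y hy
    rw [uIcc_of_ge hl2.2] at hy
    refine ⟨hyE y (by linarith [hl2.1, hy.1]) hy.2, ?_⟩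
    rcases hy.1.lt_or_eq with h | h
    · exact fun h2 => hmax y h hy.2 (Or.inr h2)
    · rw [← h]; exact hPnotQ l hl
  have hlm : JoinedIn (E \ range Q) ((l : ℂ) * I) ((m : ℂ) * I) := by
    apply (hPc _ hl _ hm2' (hne1 _) (hne2 _) (hne1 _) (hne2 _)).mono
    rintro z ⟨h1, h2⟩
    refine ⟨hPE z h1, fun h3 => h2 ?_⟩
    rcases hI z h1 h3 with h | h
    · exact Or.inl h
    · exact Or.inr h
  have hnm := hnl.trans hlm
  -- the highest point of Q below m
  have hT : IsCompact (Icc (-2 : ℝ) m ∩ {y | (y : ℂ) * I ∈ range Q}) :=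
    isCompact_Icc.inter_right (hcQ.isClosed.preimage hcont)
  have hTne : (Icc (-2 : ℝ) m ∩ {y | (y : ℂ) * I ∈ range Q}).Nonempty := by
    by_contra hcon
    have hms : JoinedIn (E \ range Q) ((m : ℂ) * I) (((-2 : ℝ) : ℂ) * I) := by
      apply vjoin
      intro y hy
      rw [uIcc_of_ge hm1.1] at hy
      refine ⟨hyE y hy.1 (by linarith [hm1.2, hy.2]), fun h => hcon ⟨y, hy, h⟩⟩
    have := hnm.trans hms
    apply not_joinedIn Q (fun t => hQE _ ⟨t, rfl⟩)
    have e1 : ((2 : ℝ) : ℂ) * I = 2 * I := by push_cast; rfl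
    have e2 : ((-2 : ℝ) : ℂ) * I = -(2 * I) := by push_cast; ring
    rwa [e1, e2] at this
  obtain ⟨p, ⟨hp1, hp2⟩, hp3⟩ := hT.exists_isGreatest hTne
  have hp2' : (p : ℂ) * I ∈ range Q := hp2
  have hpm : p < m := by
    rcases hp1.2.lt_or_eq with h | h
    · exact h
    · exfalso
      rw [h] at hp2'
      exact hPnotQ m hm2' hp2'
  have habove : ∀ y : ℝ, p < y → y ≤ m → (y : ℂ) * I ∉ range Q := by
    intro y h1 h2 h3
    have := hp3 ⟨⟨by linarith [hp1.1], h2⟩, h3⟩
    linarith
  set z₀ : ℝ := (m + p) / 2 with hz₀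
  have hz1 : p < z₀ := by rw [hz₀]; linarith
  have hz2 : z₀ < m := by rw [hz₀]; linarith
  have hz3 : -2 < z₀ := by linarith [hp1.1]
  have hz4 : z₀ < 2 := by linarith [hm1.2]
  have hzJ : (z₀ : ℂ) * I ∈ (range P ∪ range Q)ᶜ := by
    rintro (h | h)
    · exact hbelow z₀ hz3.le hz2 h
    · exact habove z₀ hz1 hz2.le h
  -- the path to the outside
  have hopen : IsOpen (range P ∪ range Q)ᶜ := (hcP.union hcQ).isClosed.isOpen_compl
  have h3 : (3 : ℂ) ∈ (range P ∪ range Q)ᶜ := by
    intro h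
    have := (hE _ h).1
    norm_num at this
  have hpc : IsPathConnected (range P ∪ range Q)ᶜ :=
    hopen.isConnected_iff_isPathConnected.mp ⟨⟨_, h3⟩, hpre⟩
  obtain ⟨δ, hδ⟩ := hpc.joinedIn _ hzJ _ h3
  obtain ⟨u, huE, hub, huj⟩ := first_exit δ (by
      constructor
      · simp
      · simp only [mul_im, ofReal_re, I_im, mul_one, ofReal_im, I_re, mul_zero, add_zero]
        exact abs_lt.mpr ⟨hz3, hz4⟩) (by
      rintro ⟨h, -⟩
      norm_num at h)
  have huj' : JoinedIn (E \ (range P ∪ range Q)) ((z₀ : ℂ) * I) u := by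
    apply huj.mono
    rintro z ⟨h1, ⟨t, rfl⟩⟩
    exact ⟨h1, hδ t⟩
  have huJ : u ∉ range P ∪ range Q := huj'.target_mem.2
  have hcorner : ∀ (c : ℝ), |c| = 2 → (0 < c * u.im ∨ u.im = c) →
      JoinedIn (E \ (range P ∪ range Q)) u ((c : ℂ) * I) := by
    intro c hc hcu
    have hcu' : 0 < c * u.im := by
      rcases hcu with h | h
      · exact h
      · rw [h]
        have : 0 < |c| * |c| := by rw [hc]; norm_num
        rwa [abs_mul_abs_self] at this
    have huE1 := abs_le.mp huE.1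
    have huE2 := abs_le.mp huE.2
    have htop : ∀ z : ℂ, |z.im| = 2 → z ∉ range P ∪ range Q := by
      intro z h1 h2
      have := (hE z h2).2
      linarith
    have hside : ∀ z : ℂ, |z.re| = 1 → z.im ≠ 0 → z ∉ range P ∪ range Q := by
      intro z h1 h2 h3
      rcases hb z h3 h1 with h | h
      · rw [h] at h2; simp at h2
      · rw [h] at h2; simp at h2
    have j2 : JoinedIn (E \ (range P ∪ range Q)) ((u.re : ℂ) + (c : ℂ) * I) ((c : ℂ) * I) := by
      apply segjoin
      intro z hz1 hz2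
      simp only [add_re, ofReal_re, mul_re, I_re, mul_zero, ofReal_im, I_im, mul_one, sub_self,
        add_zero] at hz1
      simp only [add_im, ofReal_im, mul_im, ofReal_re, I_im, mul_one, I_re, mul_zero, add_zero,
        zero_add, uIcc_self, mem_singleton_iff] at hz2
      refine ⟨⟨?_, ?_⟩, ?_⟩
      · rw [abs_le]
        rcases le_total u.re 0 with h | h
        · rw [uIcc_of_le h] at hz1
          exact ⟨by linarith [hz1.1], by linarith [hz1.2]⟩
        · rw [uIcc_of_ge h] at hz1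
          exact ⟨by linarith [hz1.1], by linarith [hz1.2]⟩
      · rw [hz2, hc]
      · apply htop; rw [hz2, hc]
    refine JoinedIn.trans ?_ j2
    rcases hub with h | h
    · apply segjoin
      intro z hz1 hz2
      simp only [add_re, ofReal_re, mul_re, I_re, mul_zero, ofReal_im, I_im, mul_one, sub_self,
        add_zero, uIcc_self, mem_singleton_iff] at hz1
      simp only [add_im, ofReal_im, mul_im, ofReal_re, I_im, mul_one, I_re, mul_zero, add_zero,
        zero_add] at hz2
      have hzz : |z.im| ≤ 2 ∧ z.im ≠ 0 := by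
        rcases le_total 0 c with h0 | h0
        · rw [abs_of_nonneg h0] at hc
          subst hc
          rw [uIcc_of_le huE2.2] at hz2
          have : 0 < u.im := by linarith
          exact ⟨abs_le.mpr ⟨by linarith [hz2.1], hz2.2⟩, by linarith [hz2.1]⟩
        · rw [abs_of_nonpos h0] at hc
          have hc' : c = -2 := by linarith
          subst hc'
          rw [uIcc_of_ge huE2.1] at hz2
          have : u.im < 0 := by linarith
          exact ⟨abs_le.mpr ⟨hz2.1, by linarith [hz2.2]⟩, by linarith [hz2.2]⟩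
      refine ⟨⟨?_, hzz.1⟩, ?_⟩
      · rw [hz1, h]
      · apply hside
        · rw [hz1, h]
        · exact hzz.2
    · have hcu2 : u.im = c := by
        rcases le_total 0 c with h0 | h0
        · rw [abs_of_nonneg h0] at hc
          subst hc
          have : 0 < u.im := by linarith
          rwa [abs_of_pos this] at h
        · rw [abs_of_nonpos h0] at hc
          have hc' : c = -2 := by linarith
          subst hc'
          have : u.im < 0 := by linarith
          rw [abs_of_neg this] at h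
          linarith
      have : u = (u.re : ℂ) + (c : ℂ) * I := by
        rw [← hcu2]; exact (Complex.re_add_im u).symm
      rw [← this]
      exact JoinedIn.refl ⟨huE, huJ⟩
  have huim : u.im ≠ 0 := by
    intro h0
    rcases hub with h | h
    · rcases abs_eq (zero_le_one) |>.mp h with h1 | h1
      · apply huJ
        have : u = 1 := Complex.ext (by simpa using h1) (by simpa using h0)
        rw [this]
        exact Or.inl P.target_mem_range
      · apply huJ
        have : u = -1 := Complex.ext (by simpa using h1) (by simpa using h0)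
        rw [this]
        exact Or.inl P.source_mem_range
    · rw [h0] at h; simp at h
  have e1 : ((2 : ℝ) : ℂ) * I = 2 * I := by push_cast; rfl
  have e2 : ((-2 : ℝ) : ℂ) * I = -(2 * I) := by push_cast; ring
  rcases lt_or_gt_of_ne huim with h0 | h0
  · have j1 : JoinedIn (E \ range Q) ((m : ℂ) * I) ((z₀ : ℂ) * I) := by
      apply vjoin
      intro y hy
      rw [uIcc_of_ge hz2.le] at hy
      exact ⟨hyE y (by linarith [hy.1]) (by linarith [hy.2, hm1.2]),
        habove y (by linarith [hy.1]) hy.2⟩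
    have j2 : JoinedIn (E \ range Q) ((z₀ : ℂ) * I) u :=
      huj'.mono (fun z hz => ⟨hz.1, fun h => hz.2 (Or.inr h)⟩)
    have j3 : JoinedIn (E \ range Q) u (((-2 : ℝ) : ℂ) * I) :=
      (hcorner (-2) (by norm_num) (Or.inl (by linarith))).mono
        (fun z hz => ⟨hz.1, fun h => hz.2 (Or.inr h)⟩)
    have := ((hnm.trans j1).trans j2).trans j3
    rw [e1, e2] at this
    exact not_joinedIn Q (fun t => hQE _ ⟨t, rfl⟩) this
  · have j1 : JoinedIn (E \ range P) (((-2 : ℝ) : ℂ) * I) ((z₀ : ℂ) * I) := by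
      apply vjoin
      intro y hy
      rw [uIcc_of_le hz3.le] at hy
      exact ⟨hyE y hy.1 (by linarith [hy.2]), hbelow y hy.1 (by linarith [hy.2])⟩
    have j2 : JoinedIn (E \ range P) ((z₀ : ℂ) * I) u :=
      huj'.mono (fun z hz => ⟨hz.1, fun h => hz.2 (Or.inl h)⟩)
    have j3 : JoinedIn (E \ range P) u (((2 : ℝ) : ℂ) * I) :=
      (hcorner 2 (by norm_num) (Or.inl (by linarith))).mono
        (fun z hz => ⟨hz.1, fun h => hz.2 (Or.inl h)⟩)
    have := ((j1.trans j2).trans j3).symm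
    rw [e1, e2] at this
    exact not_joinedIn P (fun t => hPE _ ⟨t, rfl⟩) this

/-- The normalised form. -/
theorem normalized (P Q : Path (-1 : ℂ) 1)
    (hI : ∀ z ∈ range P, z ∈ range Q → z = -1 ∨ z = 1)
    (hPc : ∀ x ∈ range P, ∀ y ∈ range P, x ≠ -1 → x ≠ 1 → y ≠ -1 → y ≠ 1 →
      JoinedIn (range P \ {-1, 1}) x y)
    (hQc : ∀ x ∈ range Q, ∀ y ∈ range Q, x ≠ -1 → x ≠ 1 → y ≠ -1 → y ≠ 1 →
      JoinedIn (range Q \ {-1, 1}) x y)
    (hE : ∀ z ∈ range P ∪ range Q, |z.re| ≤ 1 ∧ |z.im| < 2)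
    (hb : ∀ z ∈ range P ∪ range Q, |z.re| = 1 → z = -1 ∨ z = 1) :
    ¬ IsPreconnected (range P ∪ range Q)ᶜ := by
  have hcP : IsCompact (range P) := isCompact_range P.continuous
  have hcQ : IsCompact (range Q) := isCompact_range Q.continuous
  have hcont : Continuous fun y : ℝ => (y : ℂ) * I := by fun_prop
  have hS : IsCompact (Icc (-2 : ℝ) 2 ∩ {y | (y : ℂ) * I ∈ range P ∪ range Q}) :=
    isCompact_Icc.inter_right ((hcP.union hcQ).isClosed.preimage hcont)
  have hne : (Icc (-2 : ℝ) 2 ∩ {y | (y : ℂ) * I ∈ range P ∪ range Q}).Nonempty := by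
    by_contra hcon
    apply not_joinedIn P (fun t => ⟨(hE _ (Or.inl ⟨t, rfl⟩)).1, (hE _ (Or.inl ⟨t, rfl⟩)).2.le⟩)
    have e1 : ((2 : ℝ) : ℂ) * I = 2 * I := by push_cast; rfl
    have e2 : ((-2 : ℝ) : ℂ) * I = -(2 * I) := by push_cast; ring
    rw [← e2, ← e1]
    apply vjoin
    intro y hy
    rw [uIcc_of_ge (by norm_num)] at hy
    refine ⟨⟨by simp, ?_⟩, fun h => hcon ⟨y, hy, Or.inl h⟩⟩
    simp only [mul_im, ofReal_re, I_im, mul_one, ofReal_im, I_re, mul_zero, add_zero]
    exact abs_le.mpr ⟨hy.1, hy.2⟩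
  obtain ⟨l, ⟨hl1, hl2⟩, hl3⟩ := hS.exists_isGreatest hne
  have habove : ∀ y : ℝ, l < y → y ≤ 2 → (y : ℂ) * I ∉ range P ∪ range Q := by
    intro y h1 h2 h3
    have := hl3 ⟨⟨by linarith [hl1.1], h2⟩, h3⟩
    linarith
  rcases hl2 with h | h
  · exact core P Q hI hPc hE hb l h hl1 habove
  · rw [union_comm]
    rw [union_comm] at hE hb
    refine core Q P (fun z h1 h2 => hI z h2 h1) hQc hE hb l h hl1 ?_
    intro y h1 h2
    rw [union_comm]
    exact habove y h1 h2

/-! ## From a closed curve to the normalised form -/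

/-- A simple closed curve as a function on the line. -/
structure IsLoop (g : ℝ → ℂ) : Prop where
  cont : Continuous g
  inj : ∀ x y, g x = g y ↔ ∃ n : ℤ, x = y + n

theorem IsLoop.period {g : ℝ → ℂ} (hg : IsLoop g) (x : ℝ) (n : ℤ) : g (x + n) = g x :=
  (hg.inj _ _).mpr ⟨n, rfl⟩

theorem IsLoop.range_eq {g : ℝ → ℂ} (hg : IsLoop g) (u : ℝ) : range g = g '' Ico u (u + 1) := by
  apply subset_antisymm
  · rintro _ ⟨x, rfl⟩
    refine ⟨u + Int.fract (x - u), ⟨?_, ?_⟩, ?_⟩
    · linarith [Int.fract_nonneg (x - u)]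
    · linarith [Int.fract_lt_one (x - u)]
    · have : x = (u + Int.fract (x - u)) + (⌊x - u⌋ : ℤ) := by
        have := Int.fract_add_floor (x - u)
        linarith
      conv_rhs => rw [this]
      rw [hg.period]
  · rintro _ ⟨x, -, rfl⟩
    exact ⟨x, rfl⟩

theorem loop_of_circle (γ : Circle → ℂ) (hc : Continuous γ) (hi : Function.Injective γ) :
    ∃ g : ℝ → ℂ, IsLoop g ∧ range g = range γ := by
  refine ⟨fun x => γ (Circle.exp (2 * Real.pi * x)), ⟨by fun_prop, ?_⟩, ?_⟩
  · intro x y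
    constructor
    · intro h
      have h1 := hi h
      rw [Circle.exp_eq_exp] at h1
      obtain ⟨m, hm⟩ := h1
      refine ⟨m, ?_⟩
      have hpi := Real.pi_pos
      have : 2 * Real.pi * x = 2 * Real.pi * (y + m) := by rw [hm]; ring
      exact mul_left_cancel₀ (by positivity) this
    · rintro ⟨n, rfl⟩
      congr 1
      rw [Circle.exp_eq_exp]
      exact ⟨n, by ring⟩
  · apply subset_antisymm
    · rintro _ ⟨x, rfl⟩
      exact ⟨_, rfl⟩
    · rintro _ ⟨z, rfl⟩
      obtain ⟨x, rfl⟩ := Circle.exp_surjective z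
      refine ⟨x / (2 * Real.pi), ?_⟩
      simp only
      congr 2
      have := Real.pi_pos
      field_simp

theorem arc {g : ℝ → ℂ} (hg : IsLoop g) (a b : ℝ) (hab : a < b) (hab' : b < a + 1) :
    ∃ P : Path (g a) (g b), range P = g '' Icc a b ∧
      ∀ x ∈ g '' Icc a b, ∀ y ∈ g '' Icc a b, x ≠ g a → x ≠ g b → y ≠ g a → y ≠ g b →
      JoinedIn (g '' Icc a b \ {g a, g b}) x y := by
  have hgc := hg.cont
  let P : Path (g a) (g b) :=
    { toFun := fun t => g (a + t * (b - a))
      continuous_toFun := by fun_prop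
      source' := by simp
      target' := by simp }
  refine ⟨P, ?_, ?_⟩
  · apply subset_antisymm
    · rintro _ ⟨t, rfl⟩
      refine ⟨a + t * (b - a), ⟨?_, ?_⟩, rfl⟩
      · have := mul_nonneg t.2.1 (sub_pos.mpr hab).le
        linarith
      · have := mul_le_mul_of_nonneg_right t.2.2 (sub_pos.mpr hab).le
        linarith
    · rintro _ ⟨x, ⟨h1, h2⟩, rfl⟩
      have hba : 0 < b - a := sub_pos.mpr hab
      refine ⟨⟨(x - a) / (b - a), div_nonneg (by linarith) hba.le, ?_⟩, ?_⟩
      · rw [div_le_one hba]; linarith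
      · change g (a + (x - a) / (b - a) * (b - a)) = g x
        congr 1
        field_simp
        ring
  · rintro _ ⟨s, ⟨hs1, hs2⟩, rfl⟩ _ ⟨t, ⟨ht1, ht2⟩, rfl⟩ hsa hsb hta htb
    have hs1' : a < s := lt_of_le_of_ne hs1 (fun h => hsa (by rw [h]))
    have hs2' : s < b := lt_of_le_of_ne hs2 (fun h => hsb (by rw [h]))
    have ht1' : a < t := lt_of_le_of_ne ht1 (fun h => hta (by rw [h]))
    have ht2' : t < b := lt_of_le_of_ne ht2 (fun h => htb (by rw [h]))
    refine JoinedIn.ofLine (f := fun r => g (s + r * (t - s))) (by fun_prop) (by simp)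
      (by simp) ?_
    rintro _ ⟨r, ⟨hr0, hr1⟩, rfl⟩
    have hx : s + r * (t - s) ∈ Ioo a b := by
      have h := (convex_Ioo a b) ⟨hs1', hs2'⟩ ⟨ht1', ht2'⟩ (sub_nonneg.mpr hr1) hr0
        (by ring : 1 - r + r = 1)
      simp only [smul_eq_mul] at h
      convert! h using 1
      ring
    set x := s + r * (t - s) with hxdef
    refine ⟨⟨x, Ioo_subset_Icc_self hx, rfl⟩, ?_⟩
    simp only [mem_insert_iff, mem_singleton_iff, not_or]
    constructor
    · intro h
      obtain ⟨n, hn⟩ := (hg.inj _ _).mp h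
      have h1 : (n : ℝ) < 1 := by linarith [hx.2]
      have h2 : (0 : ℝ) < n := by linarith [hx.1]
      have h3 : n < 1 := by exact_mod_cast h1
      have h4 : 0 < n := by exact_mod_cast h2
      omega
    · intro h
      obtain ⟨n, hn⟩ := (hg.inj _ _).mp h
      have h1 : (n : ℝ) < 0 := by linarith [hx.2]
      have h2 : (-1 : ℝ) < n := by linarith [hx.1]
      have h3 : n < 0 := by exact_mod_cast h1
      have h4 : -1 < n := by exact_mod_cast h2
      omega

theorem loop_norm {g : ℝ → ℂ} (hg : IsLoop g) (h1 : (-1 : ℂ) ∈ range g) (h2 : (1 : ℂ) ∈ range g)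
    (hE : ∀ z ∈ range g, |z.re| ≤ 1 ∧ |z.im| < 2)
    (hb : ∀ z ∈ range g, |z.re| = 1 → z = -1 ∨ z = 1) :
    ¬ IsPreconnected (range g)ᶜ := by
  obtain ⟨u, hu⟩ := h1
  rw [hg.range_eq u] at h2
  obtain ⟨v, ⟨hv1, hv2⟩, hv⟩ := h2
  have huv : u < v := by
    refine lt_of_le_of_ne hv1 ?_
    rintro rfl
    rw [hu] at hv
    norm_num at hv
  obtain ⟨P, hP1, hP2⟩ := arc hg u v huv hv2
  obtain ⟨Q, hQ1, hQ2⟩ := arc hg (v - 1) u (by linarith) (by linarith)
  have hv' : g (v - 1) = 1 := by
    rw [← hv]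
    have := hg.period v (-1)
    rw [← this]
    congr 1
    push_cast
    ring
  rw [hu, hv] at hP2
  rw [hu, hv'] at hQ2
  let P' : Path (-1 : ℂ) 1 := P.cast hu.symm hv.symm
  let Q' : Path (-1 : ℂ) 1 := Q.symm.cast hu.symm hv'.symm
  have hP' : range P' = g '' Icc u v := by rw [← hP1]; rfl
  have hQ' : range Q' = g '' Icc (v - 1) u := by
    rw [← hQ1]
    rw [← Path.symm_range Q]
    rfl
  have hun : range g = range P' ∪ range Q' := by
    rw [hP', hQ', ← image_union, union_comm, Icc_union_Icc_eq_Icc (by linarith) huv.le]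
    apply subset_antisymm
    · rw [hg.range_eq (v - 1)]
      apply image_mono
      intro x hx
      exact ⟨hx.1, by linarith [hx.2]⟩
    · rintro _ ⟨x, -, rfl⟩
      exact ⟨x, rfl⟩
  rw [hun] at hE hb ⊢
  apply normalized P' Q'
  · rw [hP', hQ']
    rintro _ ⟨x, hx, rfl⟩ ⟨y, hy, hxy⟩
    obtain ⟨n, hn⟩ := (hg.inj _ _).mp hxy
    have h3 : (n : ℝ) ≤ 0 := by linarith [hx.1, hy.2]
    have h4 : (-1 : ℝ) ≤ n := by linarith [hx.2, hy.1]
    have h5 : n ≤ 0 := by exact_mod_cast h3
    have h6 : -1 ≤ n := by exact_mod_cast h4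
    rcases h6.lt_or_eq with h | h
    · have h7 : n = 0 := by omega
      left
      rw [h7] at hn
      push_cast at hn
      have : x = u := by linarith [hx.1, hy.2]
      rw [this, hu]
    · right
      rw [← h] at hn
      push_cast at hn
      have : x = v := by linarith [hx.2, hy.1]
      rw [this, hv]
  · rw [hP']
    intro x hx y hy a1 a2 a3 a4
    exact hP2 x hx y hy a1 a2 a3 a4
  · rw [hQ']
    intro x hx y hy a1 a2 a3 a4
    have := hQ2 x hx y hy a2 a1 a4 a3
    rwa [pair_comm] at this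
  · exact hE
  · exact hb

/-- Separation part of the Jordan curve theorem. -/
theorem jordan_separation (γ : Circle → ℂ) (hc : Continuous γ) (hi : Function.Injective γ) :
    ¬ IsPreconnected (Set.range γ)ᶜ := by
  intro hpre
  obtain ⟨g, hg, hgr⟩ := loop_of_circle γ hc hi
  rw [← hgr] at hpre
  have hgc := hg.cont
  have hcomp : IsCompact (range g) := by rw [hgr]; exact isCompact_range hc
  obtain ⟨⟨a, b⟩, ⟨ha, hb⟩, hmax⟩ := (hcomp.prod hcomp).exists_isMaxOn
    ⟨(g 0, g 0), ⟨⟨0, rfl⟩, ⟨0, rfl⟩⟩⟩ (f := fun p : ℂ × ℂ => dist p.1 p.2) (by fun_prop)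
  simp only at ha hb
  have hmax' : ∀ z ∈ range g, ∀ w ∈ range g, dist z w ≤ dist a b := by
    intro z hz w hw
    exact hmax (show (z, w) ∈ range g ×ˢ range g from ⟨hz, hw⟩)
  have hab : a ≠ b := by
    intro h
    have h1 := hmax' (g 0) ⟨0, rfl⟩ (g (1 / 2)) ⟨_, rfl⟩
    rw [h, dist_self] at h1
    have h2 : g 0 = g (1 / 2) := dist_le_zero.mp h1
    obtain ⟨n, hn⟩ := (hg.inj _ _).mp h2
    have h3 : (n : ℝ) = -(1 / 2) := by linarith
    have h4 : (2 * n : ℝ) = -1 := by linarith
    have h5 : (2 * n : ℤ) = -1 := by exact_mod_cast h4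
    omega
  have hba : b - a ≠ 0 := sub_ne_zero.mpr (Ne.symm hab)
  let T : ℂ → ℂ := fun z => (2 * z - (a + b)) / (b - a)
  have hTc : Continuous T := by
    simp only [T]
    fun_prop
  have hTi : Function.Injective T := by
    intro z w h
    simp only [T] at h
    rw [div_left_inj' hba] at h
    have : 2 * z = 2 * w := by linear_combination h
    exact mul_left_cancel₀ two_ne_zero this
  have hTs : Function.Surjective T := by
    intro z
    refine ⟨(z * (b - a) + (a + b)) / 2, ?_⟩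
    simp only [T]
    field_simp
    ring
  have hTa : T a = -1 := by
    simp only [T]
    field_simp
    ring
  have hTb : T b = 1 := by
    simp only [T]
    field_simp
    ring
  have hloop : IsLoop (T ∘ g) := by
    refine ⟨hTc.comp hgc, fun x y => ?_⟩
    rw [← hg.inj x y]
    exact hTi.eq_iff
  have hr : range (T ∘ g) = T '' range g := range_comp T g
  have habs : 0 < ‖b - a‖ := norm_pos_iff.mpr hba
  have hT1 : ∀ z ∈ range g, ‖T z - 1‖ ≤ 2 := by
    intro z hz
    have h1 : T z - 1 = 2 * (z - b) / (b - a) := by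
      simp only [T]
      field_simp
      ring
    rw [h1, norm_div, norm_mul]
    rw [div_le_iff₀ habs]
    have := hmax' z hz b hb
    rw [dist_eq_norm, dist_eq_norm, norm_sub_rev a b] at this
    simp only [Complex.norm_ofNat]
    linarith
  have hT2 : ∀ z ∈ range g, ‖T z + 1‖ ≤ 2 := by
    intro z hz
    have h1 : T z + 1 = 2 * (z - a) / (b - a) := by
      simp only [T]
      field_simp
      ring
    rw [h1, norm_div, norm_mul]
    rw [div_le_iff₀ habs]
    have := hmax' z hz a ha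
    rw [dist_eq_norm, dist_eq_norm, norm_sub_rev a b] at this
    simp only [Complex.norm_ofNat]
    linarith
  have hsq : ∀ z ∈ range (T ∘ g), (z.re - 1) ^ 2 + z.im ^ 2 ≤ 4 ∧ (z.re + 1) ^ 2 + z.im ^ 2 ≤ 4 := by
    rintro _ ⟨x, rfl⟩
    have h1 := hT1 (g x) ⟨x, rfl⟩
    have h2 := hT2 (g x) ⟨x, rfl⟩
    have h3 := Complex.sq_norm (T (g x) - 1)
    have h4 := Complex.sq_norm (T (g x) + 1)
    rw [Complex.normSq_apply] at h3 h4
    simp only [sub_re, one_re, sub_im, one_im, sub_zero, add_re, add_im, add_zero] at h3 h4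
    simp only [Function.comp_apply]
    have h5 : ‖T (g x) - 1‖ ^ 2 ≤ 4 := by nlinarith [norm_nonneg (T (g x) - 1)]
    have h6 : ‖T (g x) + 1‖ ^ 2 ≤ 4 := by nlinarith [norm_nonneg (T (g x) + 1)]
    constructor <;> nlinarith
  apply loop_norm hloop
  · obtain ⟨x, rfl⟩ := ha
    exact ⟨x, hTa⟩
  · obtain ⟨x, rfl⟩ := hb
    exact ⟨x, hTb⟩
  · intro z hz
    obtain ⟨h1, h2⟩ := hsq z hz
    constructor
    · rw [abs_le]
      constructor <;> nlinarith [sq_nonneg z.im]
    · rw [abs_lt]
      constructor <;> nlinarith [sq_nonneg z.re]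
  · intro z hz h
    obtain ⟨h1, h2⟩ := hsq z hz
    rcases (abs_eq zero_le_one).mp h with h3 | h3
    · right
      rw [h3] at h2
      have : z.im = 0 := by nlinarith [sq_nonneg z.im]
      exact Complex.ext (by simpa using h3) (by simpa using this)
    · left
      rw [h3] at h1
      have : z.im = 0 := by nlinarith [sq_nonneg z.im]
      exact Complex.ext (by simpa using h3) (by simpa using this)
  · rw [hr]
    have h1 : (T '' range g)ᶜ = T '' (range g)ᶜ := (image_compl_eq ⟨hTi, hTs⟩).symm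
    rw [h1]
    exact hpre.image T hTc.continuousOn

/-! ## Empty interior -/

theorem not_injective_circle (f : Circle → ℝ) (hf : Continuous f) : ¬ Function.Injective f := by
  intro hi
  let φ : ℝ → ℝ := fun t => f (Circle.exp t) - f (Circle.exp (t + Real.pi))
  have hφ : Continuous φ := by
    simp only [φ]
    fun_prop
  have h1 : φ Real.pi = - φ 0 := by
    simp only [φ]
    have : Circle.exp (Real.pi + Real.pi) = Circle.exp 0 := by
      rw [Circle.exp_eq_exp]
      exact ⟨1, by ring⟩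
    rw [this]
    simp only [zero_add]
    ring
  have h2 : (0 : ℝ) ∈ φ '' univ := by
    have hc : IsPreconnected (φ '' univ) := isPreconnected_univ.image φ hφ.continuousOn
    have hoc := isPreconnected_iff_ordConnected.mp hc
    rcases le_total (φ 0) 0 with h | h
    · exact hoc.out ⟨0, trivial, rfl⟩ ⟨Real.pi, trivial, rfl⟩ ⟨h, by rw [h1]; linarith⟩
    · exact hoc.out ⟨Real.pi, trivial, rfl⟩ ⟨0, trivial, rfl⟩ ⟨by rw [h1]; linarith, h⟩
  obtain ⟨t, -, ht⟩ := h2
  have h3 : Circle.exp t = Circle.exp (t + Real.pi) := hi (sub_eq_zero.mp ht)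
  rw [Circle.exp_eq_exp] at h3
  obtain ⟨m, hm⟩ := h3
  have h4 : Real.pi * (1 + 2 * m) = 0 := by linarith
  rcases mul_eq_zero.mp h4 with h5 | h5
  · exact Real.pi_ne_zero h5
  · have h6 : (1 + 2 * m : ℤ) = 0 := by exact_mod_cast h5
    omega

theorem not_injective_circle_circle (k : Circle → Circle) (hk : Continuous k) (q : Circle)
    (hq : ∀ x, k x ≠ q) : ¬ Function.Injective k := by
  intro hi
  have hslit : ∀ x, ((-(k x : ℂ) / (q : ℂ)) : ℂ) ∈ Complex.slitPlane := by
    intro x
    rw [Complex.mem_slitPlane_iff]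
    by_contra hcon
    push Not at hcon
    apply hq x
    have hn : ‖(-(k x : ℂ) / (q : ℂ))‖ = 1 := by
      rw [norm_div, norm_neg, Circle.norm_coe, Circle.norm_coe]
      norm_num
    have h1 : (-(k x : ℂ) / (q : ℂ)) = (((-(k x : ℂ) / (q : ℂ)).re : ℝ) : ℂ) :=
      Complex.ext (by simp) (by simpa using hcon.2)
    have h2 : (-(k x : ℂ) / (q : ℂ)).re = -1 := by
      rw [h1, Complex.norm_real, Real.norm_eq_abs, abs_of_nonpos hcon.1] at hn
      linarith
    rw [h2] at h1
    have hq0 : (q : ℂ) ≠ 0 := Circle.coe_ne_zero q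
    rw [div_eq_iff hq0] at h1
    push_cast at h1
    apply Circle.ext
    linear_combination -h1
  refine not_injective_circle (fun x => Complex.arg (-(k x : ℂ) / (q : ℂ))) ?_ ?_
  · rw [continuous_iff_continuousAt]
    intro x
    have h1 := Complex.continuousAt_arg (hslit x)
    have h2 : Continuous fun x => (-(k x : ℂ) / (q : ℂ)) := by fun_prop
    exact ContinuousAt.comp (f := fun x => (-(k x : ℂ) / (q : ℂ))) h1 h2.continuousAt
  · intro x y h
    simp only at h
    apply hi
    have hn : ∀ x, ‖(-(k x : ℂ) / (q : ℂ))‖ = 1 := by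
      intro x
      rw [norm_div, norm_neg, Circle.norm_coe, Circle.norm_coe]
      norm_num
    have h1 : (-(k x : ℂ) / (q : ℂ)) = (-(k y : ℂ) / (q : ℂ)) :=
      Complex.ext_norm_arg (by rw [hn, hn]) h
    have hq0 : (q : ℂ) ≠ 0 := Circle.coe_ne_zero q
    rw [div_left_inj' hq0, neg_inj] at h1
    exact Circle.ext h1

/-- A Jordan curve has empty interior. -/
theorem interior_range_eq_empty (γ : Circle → ℂ) (hc : Continuous γ) (hi : Function.Injective γ) :
    interior (Set.range γ) = ∅ := by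
  by_contra hne
  obtain ⟨z, hz⟩ := nonempty_iff_ne_empty.mpr hne
  obtain ⟨r, hr, hball⟩ := Metric.isOpen_iff.mp isOpen_interior z hz
  have hball' : Metric.ball z r ⊆ range γ := hball.trans interior_subset
  have hemb : Topology.IsEmbedding γ := (hc.isClosedEmbedding hi).isEmbedding
  let c : Circle → ℂ := fun x => z + ((r / 2 : ℝ) : ℂ) * x
  have hcc : Continuous c := by
    simp only [c]
    fun_prop
  have hcr : ∀ x, c x ∈ range γ := by
    intro x
    apply hball'
    rw [Metric.mem_ball, dist_eq_norm]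
    simp only [c, add_sub_cancel_left, norm_mul, Circle.norm_coe, Complex.norm_real,
      Real.norm_eq_abs, mul_one]
    rw [abs_of_pos (by linarith)]
    linarith
  let e := hemb.toHomeomorph
  let k : Circle → Circle := fun x => e.symm ⟨c x, hcr x⟩
  have hk : Continuous k := e.symm.continuous.comp (hcc.subtype_mk hcr)
  have hγk : ∀ x, γ (k x) = c x := by
    intro x
    have h1 : e (k x) = ⟨c x, hcr x⟩ := e.apply_symm_apply _
    have h2 : (e (k x) : ℂ) = γ (k x) := rfl
    rw [← h2, h1]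
  obtain ⟨q, hq⟩ := hball' (Metric.mem_ball_self hr)
  refine not_injective_circle_circle k hk q ?_ ?_
  · intro x hx
    have h1 := hγk x
    rw [hx, hq] at h1
    simp only [c] at h1
    have h2 : ((r / 2 : ℝ) : ℂ) * x = 0 := by linear_combination -h1
    rcases mul_eq_zero.mp h2 with h3 | h3
    · have : r / 2 = 0 := by exact_mod_cast h3
      linarith
    · exact Circle.coe_ne_zero x h3
  · intro x y hxy
    have h1 := hγk x
    have h2 := hγk y
    rw [hxy] at h1
    rw [h1] at h2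
    simp only [c, add_right_inj] at h2
    have h3 : ((r / 2 : ℝ) : ℂ) ≠ 0 := by
      intro h
      have : r / 2 = 0 := by exact_mod_cast h
      linarith
    exact Circle.ext (mul_left_cancel₀ h3 h2)

end Pool.Agent.Lib.Jordan
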